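import Mathlib
import Pool.Agent.H68R2.BP.Props2

open scoped ComplexOrder InnerProductSpace ComplexConjugate Topology
open Finset Filter

noncomputable section

namespace H68R2.BP

open H759R2.Kad H744R2.KZ

namespace KDualAux

variable {κ : Type} [Fintype κ] [DecidableEq κ] {ι : Type} [Fintype ι]

/-- the weighted Cauchy-Schwarz inequality -/
theorem core (X Y : ι → Matrix κ κ ℂ) (a b : κ → ℝ) (μ : ℝ) (hμ : 0 ≤ μ)
    (ha : ∀ p, 0 ≤ a p) (hb : ∀ q, 0 ≤ b q)
    (h1 : ∀ p, ∑ i, ∑ q, ‖Y i p q‖ ^ 2 = a p ^ 2)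
    (h2 : ∀ q, ∑ i, ∑ p, ‖Y i p q‖ ^ 2 = b q ^ 2)
    (h3 : ∑ i, ∑ p, ∑ q, ‖X i q p‖ ^ 2 * (√(a p) * √(b q)) ≤ μ * √(∑ p, a p) * √(∑ q, b q)) :
    ‖∑ i, ∑ p, ∑ q, X i q p * Y i p q‖ ≤ √μ * √((∑ p, a p) * ∑ q, b q) := by
  have hya : ∀ i p q, a p = 0 → Y i p q = 0 := by
    intro i p q h
    have e := h1 p
    rw [h, zero_pow two_ne_zero] at e
    have e2 := (Finset.sum_eq_zero_iff_of_nonneg fun i _ =>
      Finset.sum_nonneg fun q _ => sq_nonneg ‖Y i p q‖).1 e i (mem_univ i)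
    have e3 := (Finset.sum_eq_zero_iff_of_nonneg fun q _ => sq_nonneg ‖Y i p q‖).1 e2 q
      (mem_univ q)
    exact norm_eq_zero.1 (pow_eq_zero_iff two_ne_zero |>.1 e3)
  have hyb : ∀ i p q, b q = 0 → Y i p q = 0 := by
    intro i p q h
    have e := h2 q
    rw [h, zero_pow two_ne_zero] at e
    have e2 := (Finset.sum_eq_zero_iff_of_nonneg fun i _ =>
      Finset.sum_nonneg fun p _ => sq_nonneg ‖Y i p q‖).1 e i (mem_univ i)
    have e3 := (Finset.sum_eq_zero_iff_of_nonneg fun p _ => sq_nonneg ‖Y i p q‖).1 e2 p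
      (mem_univ p)
    exact norm_eq_zero.1 (pow_eq_zero_iff two_ne_zero |>.1 e3)
  set SA := ∑ p, a p with hSA
  set SB := ∑ q, b q with hSB
  have hSA0 : 0 ≤ SA := Finset.sum_nonneg fun p _ => ha p
  have hSB0 : 0 ≤ SB := Finset.sum_nonneg fun p _ => hb p
  -- sums over triples
  have tri : ∀ F : ι → κ → κ → ℝ, ∑ i, ∑ p, ∑ q, F i p q =
      ∑ z : ι × κ × κ, F z.1 z.2.1 z.2.2 := by
    intro F
    rw [Fintype.sum_prod_type]
    refine Finset.sum_congr rfl fun i _ => ?_
    rw [Fintype.sum_prod_type]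
  have hY1 : ∑ z : ι × κ × κ, (‖Y z.1 z.2.1 z.2.2‖ / √(a z.2.1)) ^ 2 = SA := by
    rw [← tri fun i p q => (‖Y i p q‖ / √(a p)) ^ 2, Finset.sum_comm]
    refine Finset.sum_congr rfl fun p _ => ?_
    have e : ∀ i q, (‖Y i p q‖ / √(a p)) ^ 2 = ‖Y i p q‖ ^ 2 / a p := by
      intro i q
      rw [div_pow, Real.sq_sqrt (ha p)]
    simp only [e]
    simp only [← Finset.sum_div]
    rw [h1 p]
    by_cases h : a p = 0
    · rw [h]; simp
    · field_simp
  have hY2 : ∑ z : ι × κ × κ, (‖Y z.1 z.2.1 z.2.2‖ / √(b z.2.2)) ^ 2 = SB := by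
    rw [← tri fun i p q => (‖Y i p q‖ / √(b q)) ^ 2]
    have e1 : ∀ i, ∑ p, ∑ q, (‖Y i p q‖ / √(b q)) ^ 2 =
        ∑ q, ∑ p, (‖Y i p q‖ / √(b q)) ^ 2 := fun i => Finset.sum_comm
    simp only [e1]
    rw [Finset.sum_comm]
    refine Finset.sum_congr rfl fun q _ => ?_
    have e : ∀ i p, (‖Y i p q‖ / √(b q)) ^ 2 = ‖Y i p q‖ ^ 2 / b q := by
      intro i p
      rw [div_pow, Real.sq_sqrt (hb q)]
    simp only [e]
    simp only [← Finset.sum_div]
    rw [h2 q]
    by_cases h : b q = 0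
    · rw [h]; simp
    · field_simp
  have hcs1 : ∑ z : ι × κ × κ, (‖Y z.1 z.2.1 z.2.2‖ / √(a z.2.1)) *
      (‖Y z.1 z.2.1 z.2.2‖ / √(b z.2.2)) ≤ √SA * √SB := by
    refine (Real.sum_mul_le_sqrt_mul_sqrt _ _ _).trans (le_of_eq ?_)
    rw [hY1, hY2]
  have hw0 : ∀ z : ι × κ × κ, 0 ≤ √(a z.2.1) * √(b z.2.2) := fun z => by positivity
  have hcs2 : ∑ z : ι × κ × κ, (‖X z.1 z.2.2 z.2.1‖ * √(√(a z.2.1) * √(b z.2.2))) *
      (‖Y z.1 z.2.1 z.2.2‖ / √(√(a z.2.1) * √(b z.2.2))) ≤
      √(μ * √SA * √SB) * √(√SA * √SB) := by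
    refine (Real.sum_mul_le_sqrt_mul_sqrt _ _ _).trans ?_
    refine mul_le_mul ?_ ?_ (Real.sqrt_nonneg _) (Real.sqrt_nonneg _)
    · refine Real.sqrt_le_sqrt ?_
      refine le_trans (le_of_eq ?_) h3
      rw [tri fun i p q => ‖X i q p‖ ^ 2 * (√(a p) * √(b q))]
      refine Finset.sum_congr rfl fun z _ => ?_
      rw [mul_pow, Real.sq_sqrt (hw0 z)]
    · refine Real.sqrt_le_sqrt ?_
      refine le_trans (le_of_eq ?_) hcs1
      refine Finset.sum_congr rfl fun z _ => ?_
      rw [div_pow, Real.sq_sqrt (hw0 z), div_mul_div_comm, sq]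
  have hmain : ‖∑ i, ∑ p, ∑ q, X i q p * Y i p q‖ ≤
      ∑ z : ι × κ × κ, (‖X z.1 z.2.2 z.2.1‖ * √(√(a z.2.1) * √(b z.2.2))) *
      (‖Y z.1 z.2.1 z.2.2‖ / √(√(a z.2.1) * √(b z.2.2))) := by
    have e1 : ‖∑ i, ∑ p, ∑ q, X i q p * Y i p q‖ ≤ ∑ i, ∑ p, ∑ q, ‖X i q p * Y i p q‖ := by
      refine (norm_sum_le _ _).trans (Finset.sum_le_sum fun i _ => ?_)
      refine (norm_sum_le _ _).trans (Finset.sum_le_sum fun p _ => ?_)
      exact norm_sum_le _ _
    refine e1.trans ?_
    rw [tri fun i p q => ‖X i q p * Y i p q‖]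
    refine Finset.sum_le_sum fun z _ => ?_
    rw [norm_mul]
    by_cases hz : √(a z.2.1) * √(b z.2.2) = 0
    · have hy : Y z.1 z.2.1 z.2.2 = 0 := by
        rcases mul_eq_zero.1 hz with h | h
        · exact hya _ _ _ ((Real.sqrt_eq_zero (ha _)).1 h)
        · exact hyb _ _ _ ((Real.sqrt_eq_zero (hb _)).1 h)
      rw [hy]
      simp
    · have hz' : 0 < √(a z.2.1) * √(b z.2.2) := lt_of_le_of_ne (hw0 z) (Ne.symm hz)
      have hz2 : √(√(a z.2.1) * √(b z.2.2)) ≠ 0 := (Real.sqrt_pos.2 hz').ne'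
      rw [mul_assoc, mul_div_cancel₀ _ hz2]
  refine hmain.trans (hcs2.trans (le_of_eq ?_))
  rw [mul_assoc μ, Real.sqrt_mul hμ, mul_assoc, Real.mul_self_sqrt (by positivity),
    Real.sqrt_mul hSA0]

theorem fr_eq (M : Matrix κ κ ℂ) : ((fr M : ℝ) : ℂ) = (M.conjTranspose * M).trace := by
  unfold fr Matrix.trace
  push_cast
  rw [Finset.sum_comm]
  refine Finset.sum_congr rfl fun j _ => ?_
  rw [Matrix.diag_apply, Matrix.mul_apply]
  refine Finset.sum_congr rfl fun i _ => ?_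
  rw [Matrix.conjTranspose_apply, RCLike.star_def, ← Complex.normSq_eq_conj_mul_self,
    Complex.normSq_eq_norm_sq]
  push_cast
  rfl

theorem fr_conj (U A : Matrix κ κ ℂ) (hU : U.conjTranspose * U = 1) :
    fr (U * A * U.conjTranspose) = fr A := by
  have h : ((fr (U * A * U.conjTranspose) : ℝ) : ℂ) = ((fr A : ℝ) : ℂ) := by
    rw [fr_eq, fr_eq, Matrix.conjTranspose_mul, Matrix.conjTranspose_mul,
      Matrix.conjTranspose_conjTranspose]
    calc (U * (A.conjTranspose * U.conjTranspose) * (U * A * U.conjTranspose)).trace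
        = (U * (A.conjTranspose * (U.conjTranspose * U) * A * U.conjTranspose)).trace := by
          simp only [Matrix.mul_assoc]
      _ = (A.conjTranspose * (U.conjTranspose * U) * A * U.conjTranspose * U).trace := by
          rw [Matrix.trace_mul_comm]
      _ = (A.conjTranspose * A).trace := by
          rw [hU, Matrix.mul_one, Matrix.mul_assoc _ _ U, hU, Matrix.mul_one]
  exact_mod_cast h

theorem fr_diag (a : κ → ℝ) (ha : ∀ p, 0 ≤ a p) :
    fr (Matrix.diagonal fun p => ((√(a p) : ℝ) : ℂ)) = ∑ p, a p := by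
  unfold fr
  refine Finset.sum_congr rfl fun p _ => ?_
  rw [Finset.sum_eq_single p]
  · rw [Matrix.diagonal_apply_eq, Complex.norm_real, Real.norm_eq_abs, sq_abs,
      Real.sq_sqrt (ha p)]
  · intro q _ hq
    rw [Matrix.diagonal_apply_ne _ (Ne.symm hq)]
    simp
  · intro h
    exact absurd (mem_univ p) h

theorem diag_form (α : Matrix κ κ ℂ) (hα : α.PosSemidef) : ∃ (U : Matrix κ κ ℂ) (a : κ → ℝ),
    U.conjTranspose * U = 1 ∧ U * U.conjTranspose = 1 ∧ (∀ p, 0 ≤ a p) ∧
    α = U * Matrix.diagonal (fun p => ((a p : ℝ) : ℂ)) * U.conjTranspose ∧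
    α.trace.re = ∑ p, a p := by
  have hsp := hα.isHermitian.spectral_theorem
  refine ⟨(hα.isHermitian.eigenvectorUnitary : Matrix κ κ ℂ), hα.isHermitian.eigenvalues,
    ?_, ?_, fun p => hα.eigenvalues_nonneg p, ?_, ?_⟩
  · exact Unitary.coe_star_mul_self hα.isHermitian.eigenvectorUnitary
  · exact Unitary.coe_mul_star_self hα.isHermitian.eigenvectorUnitary
  · exact hsp
  · rw [hα.isHermitian.trace_eq_sum_eigenvalues]
    simp

theorem row_sq (M : Matrix κ κ ℂ) (p : κ) :
    (M * M.conjTranspose) p p = ((∑ q, ‖M p q‖ ^ 2 : ℝ) : ℂ) := by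
  rw [Matrix.mul_apply]
  push_cast
  refine Finset.sum_congr rfl fun q _ => ?_
  rw [Matrix.conjTranspose_apply, RCLike.star_def, Complex.mul_conj,
    Complex.normSq_eq_norm_sq]
  push_cast
  rfl

theorem col_sq (M : Matrix κ κ ℂ) (q : κ) :
    (M.conjTranspose * M) q q = ((∑ p, ‖M p q‖ ^ 2 : ℝ) : ℂ) := by
  rw [Matrix.mul_apply]
  push_cast
  refine Finset.sum_congr rfl fun p _ => ?_
  rw [Matrix.conjTranspose_apply, RCLike.star_def, ← Complex.normSq_eq_conj_mul_self,
    Complex.normSq_eq_norm_sq]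
  push_cast
  rfl

theorem tr_diag (M : Matrix κ κ ℂ) (a b : κ → ℝ) :
    (M * Matrix.diagonal (fun p => ((a p : ℝ) : ℂ)) * M.conjTranspose *
      Matrix.diagonal (fun p => ((b p : ℝ) : ℂ))).trace =
      ((∑ p, ∑ q, ‖M q p‖ ^ 2 * (a p * b q) : ℝ) : ℂ) := by
  unfold Matrix.trace
  push_cast
  rw [Finset.sum_comm]
  refine Finset.sum_congr rfl fun q _ => ?_
  rw [Matrix.diag_apply, Matrix.mul_diagonal, Matrix.mul_apply, Finset.sum_mul]
  refine Finset.sum_congr rfl fun p _ => ?_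
  rw [Matrix.mul_diagonal, Matrix.conjTranspose_apply, RCLike.star_def]
  have h : M q p * (starRingEnd ℂ) (M q p) = ((‖M q p‖ : ℝ) : ℂ) ^ 2 := by
    rw [Complex.mul_conj, Complex.normSq_eq_norm_sq]
    push_cast
    rfl
  calc M q p * ((a p : ℝ) : ℂ) * (starRingEnd ℂ) (M q p) * ((b q : ℝ) : ℂ)
      = (M q p * (starRingEnd ℂ) (M q p)) * (((a p : ℝ) : ℂ) * ((b q : ℝ) : ℂ)) := by ring
    _ = _ := by rw [h]

end KDualAux

open KDualAux

theorem prove_K_dual : K_dual := by
  intro κ _ _ ι _ X Y α β μ hμ hα hβ h1 h2 h3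
  obtain ⟨U, a, hU1, hU2, ha, hαe, hαt⟩ := diag_form α hα
  obtain ⟨V, b, hV1, hV2, hb, hβe, hβt⟩ := diag_form β hβ
  rw [hαt, hβt]
  have hDa : ∀ (U : Matrix κ κ ℂ) (a : κ → ℝ), U.conjTranspose * U = 1 →
      U.conjTranspose * ((U * Matrix.diagonal (fun p => ((a p : ℝ) : ℂ)) * U.conjTranspose) *
      (U * Matrix.diagonal (fun p => ((a p : ℝ) : ℂ)) * U.conjTranspose)) * U =
      Matrix.diagonal (fun p => (((a p) ^ 2 : ℝ) : ℂ)) := by
    intro U a hU
    calc U.conjTranspose * ((U * Matrix.diagonal (fun p => ((a p : ℝ) : ℂ)) * U.conjTranspose) *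
        (U * Matrix.diagonal (fun p => ((a p : ℝ) : ℂ)) * U.conjTranspose)) * U
        = (U.conjTranspose * U) * Matrix.diagonal (fun p => ((a p : ℝ) : ℂ)) *
          (U.conjTranspose * U) * Matrix.diagonal (fun p => ((a p : ℝ) : ℂ)) *
          (U.conjTranspose * U) := by simp only [Matrix.mul_assoc]
      _ = Matrix.diagonal (fun p => ((a p : ℝ) : ℂ)) *
          Matrix.diagonal (fun p => ((a p : ℝ) : ℂ)) := by
          rw [hU]
          simp only [Matrix.one_mul, Matrix.mul_one]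
      _ = _ := by
          rw [Matrix.diagonal_mul_diagonal]
          congr 1
          funext p
          push_cast
          ring
  -- the rotated matrices
  have hrow : ∀ p, ∑ i, ∑ q, ‖(U.conjTranspose * Y i * V) p q‖ ^ 2 = a p ^ 2 := by
    intro p
    have e1 : ∑ i, (U.conjTranspose * Y i * V) * (U.conjTranspose * Y i * V).conjTranspose =
        Matrix.diagonal (fun p => (((a p) ^ 2 : ℝ) : ℂ)) := by
      rw [← hDa U a hU1, ← hαe, h1, Finset.mul_sum, Finset.sum_mul]
      refine Finset.sum_congr rfl fun i _ => ?_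
      rw [Matrix.conjTranspose_mul, Matrix.conjTranspose_mul, Matrix.conjTranspose_conjTranspose]
      calc U.conjTranspose * Y i * V * (V.conjTranspose * ((Y i).conjTranspose * U))
          = U.conjTranspose * Y i * (V * V.conjTranspose) * ((Y i).conjTranspose * U) := by
            simp only [Matrix.mul_assoc]
        _ = _ := by
            rw [hV2, Matrix.mul_one]
            simp only [Matrix.mul_assoc]
    have e2 := congrFun (congrFun e1 p) p
    rw [Matrix.sum_apply, Matrix.diagonal_apply_eq] at e2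
    simp only [row_sq] at e2
    exact_mod_cast e2
  have hcol : ∀ q, ∑ i, ∑ p, ‖(U.conjTranspose * Y i * V) p q‖ ^ 2 = b q ^ 2 := by
    intro q
    have e1 : ∑ i, (U.conjTranspose * Y i * V).conjTranspose * (U.conjTranspose * Y i * V) =
        Matrix.diagonal (fun p => (((b p) ^ 2 : ℝ) : ℂ)) := by
      rw [← hDa V b hV1, ← hβe, h2, Finset.mul_sum, Finset.sum_mul]
      refine Finset.sum_congr rfl fun i _ => ?_
      rw [Matrix.conjTranspose_mul, Matrix.conjTranspose_mul, Matrix.conjTranspose_conjTranspose]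
      calc V.conjTranspose * ((Y i).conjTranspose * U) * (U.conjTranspose * Y i * V)
          = V.conjTranspose * (Y i).conjTranspose * (U * U.conjTranspose) * (Y i * V) := by
            simp only [Matrix.mul_assoc]
        _ = _ := by
            rw [hU2, Matrix.mul_one]
            simp only [Matrix.mul_assoc]
    have e2 := congrFun (congrFun e1 q) q
    rw [Matrix.sum_apply, Matrix.diagonal_apply_eq] at e2
    simp only [col_sq] at e2
    exact_mod_cast e2
  have hX : ∑ i, ∑ p, ∑ q, ‖(V.conjTranspose * X i * U) q p‖ ^ 2 * (√(a p) * √(b q)) ≤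
      μ * √(∑ p, a p) * √(∑ q, b q) := by
    have e := h3 (U * Matrix.diagonal (fun p => ((√(a p) : ℝ) : ℂ)) * U.conjTranspose)
      (V * Matrix.diagonal (fun p => ((√(b p) : ℝ) : ℂ)) * V.conjTranspose)
    rw [fr_conj _ _ hU1, fr_conj _ _ hV1, fr_diag a ha, fr_diag b hb] at e
    refine le_trans (le_of_eq ?_) e
    have e1 : ∑ i, (X i * (U * Matrix.diagonal (fun p => ((√(a p) : ℝ) : ℂ)) *
        U.conjTranspose) * (X i).conjTranspose *
        (V * Matrix.diagonal (fun p => ((√(b p) : ℝ) : ℂ)) * V.conjTranspose)).trace =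
        ((∑ i, ∑ p, ∑ q, ‖(V.conjTranspose * X i * U) q p‖ ^ 2 * (√(a p) * √(b q)) : ℝ) :
          ℂ) := by
      rw [Complex.ofReal_sum]
      refine Finset.sum_congr rfl fun i _ => ?_
      rw [← tr_diag, Matrix.conjTranspose_mul, Matrix.conjTranspose_mul,
        Matrix.conjTranspose_conjTranspose]
      calc (X i * (U * Matrix.diagonal (fun p => ((√(a p) : ℝ) : ℂ)) *
          U.conjTranspose) * (X i).conjTranspose *
          (V * Matrix.diagonal (fun p => ((√(b p) : ℝ) : ℂ)) * V.conjTranspose)).trace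
          = ((X i * U * Matrix.diagonal (fun p => ((√(a p) : ℝ) : ℂ)) *
          U.conjTranspose * (X i).conjTranspose *
          V * Matrix.diagonal (fun p => ((√(b p) : ℝ) : ℂ))) * V.conjTranspose).trace := by
            simp only [Matrix.mul_assoc]
        _ = (V.conjTranspose * (X i * U * Matrix.diagonal (fun p => ((√(a p) : ℝ) : ℂ)) *
          U.conjTranspose * (X i).conjTranspose *
          V * Matrix.diagonal (fun p => ((√(b p) : ℝ) : ℂ)))).trace := by
            rw [Matrix.trace_mul_comm]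
        _ = _ := by simp only [Matrix.mul_assoc]
    rw [e1, Complex.norm_real, Real.norm_eq_abs, abs_of_nonneg]
    refine Finset.sum_nonneg fun i _ => Finset.sum_nonneg fun p _ =>
      Finset.sum_nonneg fun q _ => by positivity
  have hfin := core (fun i => V.conjTranspose * X i * U) (fun i => U.conjTranspose * Y i * V)
    a b μ hμ ha hb hrow hcol hX
  refine le_trans (le_of_eq ?_) hfin
  congr 1
  refine Finset.sum_congr rfl fun i _ => ?_
  have e1 : (X i * Y i).trace = ((V.conjTranspose * X i * U) * (U.conjTranspose * Y i * V)).trace := by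
    calc (X i * Y i).trace = (X i * (U * U.conjTranspose) * Y i * (V * V.conjTranspose)).trace := by
          rw [hU2, hV2, Matrix.mul_one, Matrix.mul_one]
      _ = ((X i * U * U.conjTranspose * Y i * V) * V.conjTranspose).trace := by
          simp only [Matrix.mul_assoc]
      _ = (V.conjTranspose * (X i * U * U.conjTranspose * Y i * V)).trace := by
          rw [Matrix.trace_mul_comm]
      _ = _ := by simp only [Matrix.mul_assoc]
  rw [e1]
  unfold Matrix.trace
  rw [Finset.sum_comm]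
  refine Finset.sum_congr rfl fun q _ => ?_
  rw [Matrix.diag_apply, Matrix.mul_apply]

end H68R2.BP
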